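import Pool.Agent.Helper46.WC.Graph1
import Pool.Agent.Helper71.WC.Pot
import Pool.Agent.Helper45.WC.Inner

set_option autoImplicit false

namespace Pool.Agent.Helper72.WC

open Finset

variable {n : ℕ}

/-- The possible partners of `v`. -/
def h5ns (ρ : Fin n → Fin n → Prop) [DecidableRel ρ] (v : Fin n) : Finset (Fin n) :=
  univ.filter fun y => y ≠ v ∧ ¬ ρ v y

/-- The number of the processed possible partners. -/
def h5a (ρ : Fin n → Fin n → Prop) [DecidableRel ρ] (P : Finset (Fin n)) (y : Fin n) : ℕ :=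
  (P ∩ h5ns ρ y).card

/-- The potential of a vertex. -/
def h5s (b : ℕ) (ρ : Fin n → Fin n → Prop) [DecidableRel ρ] (P : Finset (Fin n))
    (C : Finset (Sym2 (Fin n))) (y : Fin n) : ℤ :=
  (h5a ρ P y : ℤ) - b * (dg C y : ℤ)

/-- The remaining vertices. -/
def h5R (K : ℕ) (P : Finset (Fin n)) (C : Finset (Sym2 (Fin n))) : Finset (Fin n) :=
  univ.filter fun y => y ∉ P ∧ dg C y < K

/-- The saturated vertices. -/
def h5S (K : ℕ) (P : Finset (Fin n)) (C : Finset (Sym2 (Fin n))) : Finset (Fin n) :=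
  univ.filter fun y => y ∉ P ∧ K ≤ dg C y

/-- The invariant of the main stage. -/
structure H5Inv (b k K l : ℕ) (ρ : Fin n → Fin n → Prop) [DecidableRel ρ] (P : Finset (Fin n))
    (U C : Finset (Sym2 (Fin n))) : Prop where
  hC : C ⊆ board n
  hU : U ⊆ board n
  hd : Disjoint C U
  hres : ∀ x y, x ≠ y → ρ x y → s(x, y) ∈ U
  hout : ∀ x y, x ∉ P → y ∉ P → x ≠ y → s(x, y) ∈ U
  hsp : Sp l C
  hlo : ∀ x ∈ P, k ≤ dg C x
  hup : ∀ x, x ∉ P → dg C x ≤ K
  hupP : ∀ x ∈ P, dg C x ≤ K + n / b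
  hpot : ∃ t : ℕ, (∀ y ∈ h5R K P C, h5s b ρ P C y ≤ t) ∧
    3 * ∑ y ∈ h5R K P C, h5s b ρ P C y ^ 2 + (t : ℤ) ^ 3 + 12 * n ^ 2 * (h5S K P C).card ≤
      64 * n * b * P.card

/-! ### The star at `v` -/

theorem h5_mem_nb {C : Finset (Sym2 (Fin n))} {x y : Fin n} : y ∈ nb C x ↔ s(x, y) ∈ C := by
  simp [nb]

theorem h5_mem_star {C : Finset (Sym2 (Fin n))} {X : Finset (Fin n)} {v x y : Fin n} :
    s(x, y) ∈ C ∪ X.image (fun z => s(v, z)) ↔
      s(x, y) ∈ C ∨ (x = v ∧ y ∈ X) ∨ (y = v ∧ x ∈ X) := by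
  rw [mem_union, mem_image]
  constructor
  · rintro (h | ⟨z, hz, h⟩)
    · exact Or.inl h
    · rw [Sym2.eq_iff] at h
      rcases h with ⟨h1, h2⟩ | ⟨h1, h2⟩
      · subst h1 h2
        exact Or.inr (Or.inl ⟨rfl, hz⟩)
      · subst h1 h2
        exact Or.inr (Or.inr ⟨rfl, hz⟩)
  · rintro (h | ⟨h1, h2⟩ | ⟨h1, h2⟩)
    · exact Or.inl h
    · subst h1
      exact Or.inr ⟨y, h2, rfl⟩
    · subst h1
      exact Or.inr ⟨x, h2, Sym2.eq_swap⟩

theorem h5_nb_v {C : Finset (Sym2 (Fin n))} {X : Finset (Fin n)} {v : Fin n} (hv : v ∉ X) :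
    nb (C ∪ X.image (fun z => s(v, z))) v = nb C v ∪ X := by
  ext y
  rw [h5_mem_nb, h5_mem_star, mem_union, h5_mem_nb]
  constructor
  · rintro (h | ⟨_, h⟩ | ⟨_, h⟩)
    · exact Or.inl h
    · exact Or.inr h
    · exact absurd h hv
  · rintro (h | h)
    · exact Or.inl h
    · exact Or.inr (Or.inl ⟨rfl, h⟩)

theorem h5_nb_X {C : Finset (Sym2 (Fin n))} {X : Finset (Fin n)} {v x : Fin n} (hx : x ≠ v)
    (hX : x ∈ X) : nb (C ∪ X.image (fun z => s(v, z))) x = insert v (nb C x) := by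
  ext y
  rw [h5_mem_nb, h5_mem_star, mem_insert, h5_mem_nb]
  constructor
  · rintro (h | ⟨h, _⟩ | ⟨h, _⟩)
    · exact Or.inr h
    · exact absurd h hx
    · exact Or.inl h
  · rintro (h | h)
    · exact Or.inr (Or.inr ⟨h, hX⟩)
    · exact Or.inl h

theorem h5_nb_o {C : Finset (Sym2 (Fin n))} {X : Finset (Fin n)} {v x : Fin n} (hx : x ≠ v)
    (hX : x ∉ X) : nb (C ∪ X.image (fun z => s(v, z))) x = nb C x := by
  ext y
  rw [h5_mem_nb, h5_mem_star, h5_mem_nb]
  constructor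
  · rintro (h | ⟨h, _⟩ | ⟨_, h⟩)
    · exact h
    · exact absurd h hx
    · exact absurd h hX
  · exact Or.inl

theorem h5_dg_v {C : Finset (Sym2 (Fin n))} {X : Finset (Fin n)} {v : Fin n} (hv : v ∉ X)
    (hd : ∀ x ∈ X, s(v, x) ∉ C) :
    dg (C ∪ X.image (fun z => s(v, z))) v = dg C v + X.card := by
  unfold dg
  rw [h5_nb_v hv, card_union_of_disjoint]
  rw [Finset.disjoint_left]
  intro x hx hX
  exact hd x hX (h5_mem_nb.1 hx)

theorem h5_dg_v_le {C : Finset (Sym2 (Fin n))} {X : Finset (Fin n)} {v : Fin n} (hv : v ∉ X) :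
    dg (C ∪ X.image (fun z => s(v, z))) v ≤ dg C v + X.card := by
  unfold dg
  rw [h5_nb_v hv]
  exact card_union_le _ _

theorem h5_dg_X {C : Finset (Sym2 (Fin n))} {X : Finset (Fin n)} {v x : Fin n} (hx : x ≠ v)
    (hX : x ∈ X) (hd : s(v, x) ∉ C) :
    dg (C ∪ X.image (fun z => s(v, z))) x = dg C x + 1 := by
  unfold dg
  rw [h5_nb_X hx hX, card_insert_of_notMem]
  rw [h5_mem_nb, Sym2.eq_swap]
  exact hd

theorem h5_dg_le {C : Finset (Sym2 (Fin n))} {X : Finset (Fin n)} {v x : Fin n} (hx : x ≠ v) :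
    dg (C ∪ X.image (fun z => s(v, z))) x ≤ dg C x + 1 := by
  unfold dg
  by_cases hX : x ∈ X
  · rw [h5_nb_X hx hX]
    exact card_insert_le _ _
  · rw [h5_nb_o hx hX]
    omega

theorem h5_dg_o {C : Finset (Sym2 (Fin n))} {X : Finset (Fin n)} {v x : Fin n} (hx : x ≠ v)
    (hX : x ∉ X) : dg (C ∪ X.image (fun z => s(v, z))) x = dg C x := by
  unfold dg
  rw [h5_nb_o hx hX]

/-! ### Start and end -/

theorem h5_start {b k K l : ℕ} {ρ : Fin n → Fin n → Prop} [DecidableRel ρ]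
    (hK1 : 3 * n ≤ b * K) : H5Inv b k K l ρ ∅ (board n) ∅ := by
  have hdg : ∀ x : Fin n, dg (∅ : Finset (Sym2 (Fin n))) x = 0 := by
    intro x
    simp [dg, nb]
  have hS : h5S K (∅ : Finset (Fin n)) (∅ : Finset (Sym2 (Fin n))) = ∅ := by
    rw [Finset.eq_empty_iff_forall_notMem]
    intro y hy
    rw [h5S, mem_filter, hdg] at hy
    have hK : K = 0 := by omega
    rw [hK] at hK1
    have := y.isLt
    omega
  refine ⟨by simp, subset_rfl, by simp, ?_, ?_, ?_, by simp, ?_, by simp, 0, ?_, ?_⟩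
  · intro x y hxy _
    simp [board, hxy]
  · intro x y _ _ hxy
    simp [board, hxy]
  · intro W hW _
    simpa using hW
  · intro x _
    rw [hdg]
    omega
  · intro y _
    simp [h5s, h5a, hdg]
  · rw [hS]
    simp [h5s, h5a, hdg]

theorem h5_end {b k K Δ l : ℕ} {ρ : Fin n → Fin n → Prop} [DecidableRel ρ]
    {P : Finset (Fin n)} {U C : Finset (Sym2 (Fin n))} (hkK : k ≤ K) (hΔ : K + n / b + 1 ≤ Δ)
    (h : H5Inv b k K l ρ P U C) (hR : h5R K P C = ∅) :
    C ⊆ board n ∧ U ⊆ board n ∧ Disjoint C U ∧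
      (∀ x y, x ≠ y → ρ x y → s(x, y) ∈ U) ∧
      (∀ x, k ≤ dg C x) ∧ (∀ x, dg C x ≤ Δ) ∧ Sp l C := by
  refine ⟨h.hC, h.hU, h.hd, h.hres, ?_, ?_, h.hsp⟩
  · intro x
    by_cases hx : x ∈ P
    · exact h.hlo x hx
    · by_contra hcon
      have : x ∈ h5R K P C := by
        rw [h5R, mem_filter]
        exact ⟨mem_univ _, hx, by omega⟩
      rw [hR] at this
      exact absurd this (Finset.notMem_empty _)
  · intro x
    by_cases hx : x ∈ P
    · have := h.hupP x hx
      omega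
    · exact (h.hup x hx).trans ((Nat.le_add_right _ _).trans ((Nat.le_add_right _ _).trans hΔ))

/-! ### The step -/

theorem h5_mem_R {K : ℕ} {P : Finset (Fin n)} {C : Finset (Sym2 (Fin n))} {y : Fin n} :
    y ∈ h5R K P C ↔ y ∉ P ∧ dg C y < K := by
  simp [h5R]

theorem h5_mem_S {K : ℕ} {P : Finset (Fin n)} {C : Finset (Sym2 (Fin n))} {y : Fin n} :
    y ∈ h5S K P C ↔ y ∉ P ∧ K ≤ dg C y := by
  simp [h5S]

theorem h5_mem_ns {ρ : Fin n → Fin n → Prop} [DecidableRel ρ] {v y : Fin n} :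
    y ∈ h5ns ρ v ↔ y ≠ v ∧ ¬ ρ v y := by
  simp [h5ns]

section Step

variable {b k K l : ℕ} {ρ : Fin n → Fin n → Prop} [DecidableRel ρ]
  {P : Finset (Fin n)} {U C : Finset (Sym2 (Fin n))} {v : Fin n} {X A : Finset (Fin n)}

theorem h5_a_insert (hρ : ∀ x y, ρ x y → ρ y x) (hv : v ∉ P) {y : Fin n} (hy : y ≠ v) :
    h5a ρ (insert v P) y = h5a ρ P y + if y ∈ h5ns ρ v then 1 else 0 := by
  unfold h5a
  by_cases h : y ∈ h5ns ρ v
  · have hvy : v ∈ h5ns ρ y := by
      rw [h5_mem_ns] at h ⊢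
      exact ⟨hy.symm, fun h2 => h.2 (hρ _ _ h2)⟩
    rw [if_pos h, Finset.insert_inter_of_mem hvy, card_insert_of_notMem]
    intro h3
    exact hv (mem_inter.1 h3).1
  · have hvy : v ∉ h5ns ρ y := by
      rw [h5_mem_ns] at h ⊢
      rintro ⟨_, h2⟩
      exact h ⟨hy, fun h3 => h2 (hρ _ _ h3)⟩
    rw [if_neg h, Finset.insert_inter_of_notMem hvy, add_zero]

/-- The remaining set after the step. -/
theorem h5_R_step (hX : X ⊆ (h5R K P C).erase v) (hd : ∀ x ∈ X, s(v, x) ∉ C) :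
    h5R K (insert v P) (C ∪ X.image fun y => s(v, y)) =
      ((h5R K P C).erase v) \ (X.filter fun y => K ≤ dg C y + 1) := by
  ext y
  rw [h5_mem_R, mem_sdiff, mem_filter, mem_erase, h5_mem_R, mem_insert, not_or]
  by_cases hyv : y = v
  · simp [hyv]
  by_cases hyX : y ∈ X
  · rw [h5_dg_X hyv hyX (hd y hyX)]
    have h1 := mem_erase.1 (hX hyX)
    rw [h5_mem_R] at h1
    constructor
    · rintro ⟨_, h3⟩
      exact ⟨h1, fun h4 => by omega⟩
    · rintro ⟨_, h3⟩
      refine ⟨⟨hyv, h1.2.1⟩, ?_⟩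
      by_contra h4
      exact h3 ⟨hyX, by omega⟩
  · rw [h5_dg_o hyv hyX]
    constructor
    · rintro ⟨⟨_, h2⟩, h3⟩
      exact ⟨⟨hyv, h2, h3⟩, fun h4 => hyX h4.1⟩
    · rintro ⟨⟨_, h2, h3⟩, _⟩
      exact ⟨⟨hyv, h2⟩, h3⟩

/-- The saturated set after the step. -/
theorem h5_S_step (hvR : v ∈ h5R K P C) (hX : X ⊆ (h5R K P C).erase v)
    (hd : ∀ x ∈ X, s(v, x) ∉ C) :
    (h5S K (insert v P) (C ∪ X.image fun y => s(v, y))).card =
      (h5S K P C).card + (X.filter fun y => K ≤ dg C y + 1).card := by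
  rw [← card_union_of_disjoint]
  · congr 1
    ext y
    rw [h5_mem_S, mem_union, mem_filter, h5_mem_S, mem_insert, not_or]
    rw [h5_mem_R] at hvR
    by_cases hyv : y = v
    · subst hyv
      constructor
      · rintro ⟨⟨h, _⟩, _⟩
        exact absurd rfl h
      · rintro (h | h)
        · omega
        · exact absurd rfl (mem_erase.1 (hX h.1)).1
    by_cases hyX : y ∈ X
    · rw [h5_dg_X hyv hyX (hd y hyX)]
      have h1 := mem_erase.1 (hX hyX)
      rw [h5_mem_R] at h1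
      constructor
      · rintro ⟨_, h3⟩
        exact Or.inr ⟨hyX, h3⟩
      · rintro (h | h)
        · omega
        · exact ⟨⟨hyv, h1.2.1⟩, h.2⟩
    · rw [h5_dg_o hyv hyX]
      constructor
      · rintro ⟨⟨_, h2⟩, h3⟩
        exact Or.inl ⟨h2, h3⟩
      · rintro (h | h)
        · exact ⟨⟨hyv, h.1⟩, h.2⟩
        · exact absurd h.1 hyX
  · rw [Finset.disjoint_left]
    intro y hy hy2
    rw [h5_mem_S] at hy
    have h1 := mem_erase.1 (hX (mem_filter.1 hy2).1)
    rw [h5_mem_R] at h1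
    omega

/-- The potentials after the step. -/
theorem h5_s_step (hρ : ∀ x y, ρ x y → ρ y x) (hvP : v ∉ P)
    (hd : ∀ x ∈ X, s(v, x) ∉ C) {y : Fin n} (hy : y ∈ (h5R K P C).erase v) :
    h5s b ρ (insert v P) (C ∪ X.image fun y => s(v, y)) y =
      h5s b ρ P C y + (if y ∈ (h5R K P C).erase v ∩ h5ns ρ v then 1 else 0) -
        (if y ∈ X then (b : ℤ) else 0) := by
  have hyv : y ≠ v := (mem_erase.1 hy).1
  unfold h5s
  rw [h5_a_insert hρ hvP hyv]
  have e1 : (y ∈ (h5R K P C).erase v ∩ h5ns ρ v) ↔ y ∈ h5ns ρ v := by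
    rw [mem_inter]
    exact ⟨fun h => h.2, fun h => ⟨hy, h⟩⟩
  by_cases hyX : y ∈ X
  · rw [h5_dg_X hyv hyX (hd y hyX), if_pos hyX]
    by_cases h : y ∈ h5ns ρ v
    · rw [if_pos h, if_pos (e1.2 h)]
      push_cast
      ring
    · rw [if_neg h, if_neg (fun h2 => h (e1.1 h2))]
      push_cast
      ring
  · rw [h5_dg_o hyv hyX, if_neg hyX]
    by_cases h : y ∈ h5ns ρ v
    · rw [if_pos h, if_pos (e1.2 h)]
      push_cast
      ring
    · rw [if_neg h, if_neg (fun h2 => h (e1.1 h2))]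
      push_cast
      ring

/-- The count at the centre. -/
theorem h5_count {r0 : ℕ} (hr : ∀ x, (univ.filter fun y => ρ x y).card ≤ r0)
    (P : Finset (Fin n)) (C : Finset (Sym2 (Fin n))) (K : ℕ) (v : Fin n) :
    n ≤ h5a ρ P v + ((h5R K P C).erase v ∩ h5ns ρ v).card + (h5S K P C).card + 1 + r0 := by
  have hsub : (univ : Finset (Fin n)) ⊆
      (((P ∩ h5ns ρ v) ∪ ((h5R K P C).erase v ∩ h5ns ρ v)) ∪ h5S K P C) ∪ {v} ∪
        (univ.filter fun y => ρ v y) := by
    intro y _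
    simp only [mem_union, mem_inter, mem_erase, h5_mem_R, h5_mem_S, h5_mem_ns, mem_singleton,
      mem_filter, mem_univ, true_and]
    by_cases h1 : y = v
    · exact Or.inl (Or.inr h1)
    by_cases h2 : ρ v y
    · exact Or.inr h2
    by_cases h3 : y ∈ P
    · exact Or.inl (Or.inl (Or.inl (Or.inl ⟨h3, h1, h2⟩)))
    by_cases h4 : dg C y < K
    · exact Or.inl (Or.inl (Or.inl (Or.inr ⟨⟨h1, h3, h4⟩, h1, h2⟩)))
    · exact Or.inl (Or.inl (Or.inr ⟨h3, by omega⟩))
  have h1 := card_le_card hsub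
  rw [card_univ, Fintype.card_fin] at h1
  have h2 := card_union_le ((((P ∩ h5ns ρ v) ∪ ((h5R K P C).erase v ∩ h5ns ρ v)) ∪
    h5S K P C) ∪ {v}) (univ.filter fun y => ρ v y)
  have h3 := card_union_le (((P ∩ h5ns ρ v) ∪ ((h5R K P C).erase v ∩ h5ns ρ v)) ∪
    h5S K P C) {v}
  have h4 := card_union_le ((P ∩ h5ns ρ v) ∪ ((h5R K P C).erase v ∩ h5ns ρ v)) (h5S K P C)
  have h5 := card_union_le (P ∩ h5ns ρ v) ((h5R K P C).erase v ∩ h5ns ρ v)
  have h6 := hr v
  rw [card_singleton] at h3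
  unfold h5a
  omega

/-- The invariant after the step. -/
theorem h5_step {r0 t : ℕ} (hρ : ∀ x y, ρ x y → ρ y x)
    (hr : ∀ x, (univ.filter fun y => ρ x y).card ≤ r0) (hb : 0 < b) (hK1 : 3 * n ≤ b * K)
    (h : H5Inv b k K l ρ P U C) (hvR : v ∈ h5R K P C)
    (hmax : ∀ y ∈ h5R K P C, h5s b ρ P C y ≤ h5s b ρ P C v)
    (ht : h5s b ρ P C v ≤ t)
    (hpot : 3 * ∑ y ∈ h5R K P C, h5s b ρ P C y ^ 2 + (t : ℤ) ^ 3 +
      12 * n ^ 2 * (h5S K P C).card ≤ 64 * n * b * P.card)
    (hnum : b * (k + 7) + r0 + t + 1 ≤ n)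
    (hXA : X ⊆ A) (hAW : A ⊆ (h5R K P C).erase v ∩ h5ns ρ v) (hcard : A.card = X.card * b)
    (hsp : Sp l (C ∪ X.image fun y => s(v, y)))
    (hWA : ((h5R K P C).erase v ∩ h5ns ρ v).card < A.card + b + b)
    (hsum : ∑ y ∈ A, h5s b ρ P C y - b * ∑ y ∈ X, h5s b ρ P C y ≤ b * (t + 6 * n)) :
    H5Inv b k K l ρ (insert v P) (U \ A.image fun y => s(v, y))
      (C ∪ X.image fun y => s(v, y)) := by
  have hvR' := h5_mem_R.1 hvR
  have hvP := hvR'.1
  have hXW : X ⊆ (h5R K P C).erase v ∩ h5ns ρ v := hXA.trans hAW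
  have hXR : X ⊆ (h5R K P C).erase v := hXW.trans inter_subset_left
  have hXv : v ∉ X := fun h2 => (mem_erase.1 (hXR h2)).1 rfl
  have hXP : ∀ x ∈ X, x ∉ P := fun x hx => (h5_mem_R.1 (mem_erase.1 (hXR hx)).2).1
  have hXU : ∀ x ∈ X, s(v, x) ∈ U := fun x hx =>
    h.hout v x hvP (hXP x hx) (fun h2 => hXv (h2 ▸ hx))
  have hd : ∀ x ∈ X, s(v, x) ∉ C := fun x hx h2 =>
    Finset.disjoint_left.1 h.hd h2 (hXU x hx)
  have hPn : P.card + 1 ≤ n := by
    rw [← card_insert_of_notMem hvP]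
    calc (insert v P).card ≤ (univ : Finset (Fin n)).card := card_le_card (subset_univ _)
      _ = n := by rw [card_univ, Fintype.card_fin]
  have hn : 0 < n := by omega
  have hWn : ((h5R K P C).erase v ∩ h5ns ρ v).card ≤ n := by
    calc _ ≤ (univ : Finset (Fin n)).card := card_le_card (subset_univ _)
      _ = n := by rw [card_univ, Fintype.card_fin]
  have hXb : X.card ≤ n / b := by
    rw [Nat.le_div_iff_mul_le hb, ← hcard]
    exact (card_le_card hAW).trans hWn
  have htn : t ≤ n := by omega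
  have hbn : b ≤ n := by nlinarith
  have hdgv := h5_dg_v (C := C) hXv hd
  have hneg : ∑ y ∈ h5R K P C, h5s b ρ P C y ^ 2 ≥ 0 := sum_nonneg fun y _ => sq_nonneg _
  -- the number of the saturated vertices
  have hSat : (h5S K P C).card ≤ 6 * b := by
    have h1 : (12 * n ^ 2 * (h5S K P C).card : ℤ) ≤ 64 * n * b * P.card := by
      have : (0 : ℤ) ≤ (t : ℤ) ^ 3 := by positivity
      linarith
    have h2 : (64 * n * b * P.card : ℤ) ≤ 64 * n * b * n := by
      have : (P.card : ℤ) ≤ n := by exact_mod_cast (by omega : P.card ≤ n)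
      exact mul_le_mul_of_nonneg_left this (by positivity)
    have h3 : 12 * n ^ 2 * (h5S K P C).card ≤ 64 * n * b * n := by exact_mod_cast h1.trans h2
    by_contra hcon
    have h4 : 6 * b + 1 ≤ (h5S K P C).card := by omega
    have h5 : 12 * n ^ 2 * (6 * b + 1) ≤ 12 * n ^ 2 * (h5S K P C).card :=
      Nat.mul_le_mul_left _ h4
    have h6 : 0 < n ^ 2 := by positivity
    nlinarith
  refine ⟨?_, ?_, ?_, ?_, ?_, hsp, ?_, ?_, ?_, ?_⟩
  · -- C' ⊆ board
    refine union_subset h.hC ?_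
    intro e he
    obtain ⟨x, hx, rfl⟩ := mem_image.1 he
    exact h.hU (hXU x hx)
  · exact sdiff_subset.trans h.hU
  · -- disjoint
    rw [disjoint_union_left]
    refine ⟨h.hd.mono_right sdiff_subset, ?_⟩
    rw [Finset.disjoint_left]
    intro e he he2
    obtain ⟨x, hx, rfl⟩ := mem_image.1 he
    exact (mem_sdiff.1 he2).2 (mem_image.2 ⟨x, hXA hx, rfl⟩)
  · -- reserved pairs
    intro x y hxy hxyρ
    rw [mem_sdiff]
    refine ⟨h.hres x y hxy hxyρ, ?_⟩
    intro he
    obtain ⟨z, hz, h1⟩ := mem_image.1 he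
    have h2 := (h5_mem_ns.1 (mem_inter.1 (hAW hz)).2).2
    rw [Sym2.eq_iff] at h1
    rcases h1 with ⟨h3, h4⟩ | ⟨h3, h4⟩
    · subst h3 h4
      exact h2 hxyρ
    · subst h3 h4
      exact h2 (hρ _ _ hxyρ)
  · -- outer pairs
    intro x y hx hy hxy
    rw [mem_insert, not_or] at hx hy
    rw [mem_sdiff]
    refine ⟨h.hout x y hx.2 hy.2 hxy, ?_⟩
    intro he
    obtain ⟨z, hz, h1⟩ := mem_image.1 he
    rw [Sym2.eq_iff] at h1
    rcases h1 with ⟨h3, _⟩ | ⟨h3, _⟩
    · exact hx.1 h3.symm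
    · exact hy.1 h3.symm
  · -- the degrees of the processed vertices
    intro x hx
    rcases mem_insert.1 hx with rfl | hxP
    · rw [hdgv]
      have hcount := h5_count hr P C K x
      have h1 : (b : ℤ) * (dg C x : ℤ) = h5a ρ P x - h5s b ρ P C x := by
        unfold h5s
        ring
      have h2 : (b : ℤ) * (X.card : ℤ) = A.card := by
        rw [hcard]
        push_cast
        ring
      have h3 : (n : ℤ) ≤ h5a ρ P x + ((h5R K P C).erase x ∩ h5ns ρ x).card +
          (h5S K P C).card + 1 + r0 := by exact_mod_cast hcount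
      have h4 : (((h5R K P C).erase x ∩ h5ns ρ x).card : ℤ) < A.card + b + b := by
        exact_mod_cast hWA
      have h5 : ((h5S K P C).card : ℤ) ≤ 6 * b := by exact_mod_cast hSat
      have h6 : (b : ℤ) * (k + 7) + r0 + t + 1 ≤ n := by exact_mod_cast hnum
      have h7 : (b : ℤ) * (k - 1) < b * ((dg C x : ℤ) + X.card) := by
        have e1 : (b : ℤ) * ((dg C x : ℤ) + X.card) =
          h5a ρ P x - h5s b ρ P C x + A.card := by
          rw [mul_add, h1, h2]
        rw [e1]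
        nlinarith
      have h8 : ((k : ℤ) - 1) < (dg C x : ℤ) + X.card :=
        lt_of_mul_lt_mul_left h7 (by positivity)
      omega
    · have hxv : x ≠ v := fun h2 => hvP (h2 ▸ hxP)
      have hxX : x ∉ X := fun h2 => hXP x h2 hxP
      rw [h5_dg_o hxv hxX]
      exact h.hlo x hxP
  · -- the degrees of the other vertices
    intro x hx
    rw [mem_insert, not_or] at hx
    by_cases hxX : x ∈ X
    · rw [h5_dg_X hx.1 hxX (hd x hxX)]
      have := (h5_mem_R.1 (mem_erase.1 (hXR hxX)).2).2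
      omega
    · rw [h5_dg_o hx.1 hxX]
      exact h.hup x hx.2
  · intro x hx
    rcases mem_insert.1 hx with rfl | hxP
    · rw [hdgv]
      have := hvR'.2
      omega
    · have hxv : x ≠ v := fun h2 => hvP (h2 ▸ hxP)
      have hxX : x ∉ X := fun h2 => hXP x h2 hxP
      rw [h5_dg_o hxv hxX]
      exact h.hupP x hxP
  · -- the potential
    have hpa := pot_abs (R := h5R K P C) (W := (h5R K P C).erase v ∩ h5ns ρ v) (A := A)
      (X := X) (N := X.filter fun y => K ≤ dg C y + 1) (v := v) (s0 := h5s b ρ P C)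
      (n := n) (b := b) (t := t) hb hbn htn hvR inter_subset_left hAW hXA
      (filter_subset _ _) hcard hWn (by omega) hmax ht
      (hsum.trans (by
        have : (b : ℤ) * t ≤ b * n :=
          mul_le_mul_of_nonneg_left (by exact_mod_cast htn) (by positivity)
        nlinarith)) ?_
    · obtain ⟨t', h1, h2⟩ := hpa
      refine ⟨t', ?_, ?_⟩
      · intro y hy
        rw [h5_R_step hXR hd] at hy
        rw [h5_s_step hρ hvP hd (mem_sdiff.1 hy).1]
        exact h1 y hy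
      · rw [h5_R_step hXR hd, h5_S_step hvR hXR hd, card_insert_of_notMem hvP]
        rw [sum_congr rfl fun y hy => by
          rw [h5_s_step hρ hvP hd (mem_sdiff.1 hy).1]]
        push_cast
        linarith
    · intro y hy
      obtain ⟨hyX, hyK⟩ := mem_filter.1 hy
      have h1 : h5a ρ P y ≤ P.card := card_le_card inter_subset_left
      have h2 : (h5a ρ P y : ℤ) + 1 ≤ n := by exact_mod_cast (by omega : h5a ρ P y + 1 ≤ n)
      have h3 : b * K ≤ b * (dg C y + 1) := Nat.mul_le_mul_left _ hyK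
      have h4 : (3 * n : ℤ) ≤ b * (dg C y + 1) := by exact_mod_cast hK1.trans h3
      unfold h5s
      linarith

end Step

theorem main_stage {b k K Δ l r0 : ℕ} {ρ : Fin n → Fin n → Prop} [DecidableRel ρ]
    (hρ : ∀ x y, ρ x y → ρ y x) (hr : ∀ x, (univ.filter fun y => ρ x y).card ≤ r0)
    (hb : 0 < b) (hK1 : 3 * n ≤ b * K) (hK2 : b * K ≤ 6 * n) (hkK : k ≤ K)
    (hΔ : K + n / b + 1 ≤ Δ) (hβ : (Δ + 1) ^ l ≤ b)
    (hnum : ∀ t : ℕ, t ^ 3 ≤ 64 * n ^ 2 * b → b * (k + 7) + r0 + t + 1 ≤ n) :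
    Force b (fun U C => C ⊆ board n ∧ U ⊆ board n ∧ Disjoint C U ∧
      (∀ x y, x ≠ y → ρ x y → s(x, y) ∈ U) ∧
      (∀ x, k ≤ dg C x) ∧ (∀ x, dg C x ≤ Δ) ∧ Sp l C) (board n) ∅ := by
  have hloop := Force.loop (b := b) (U := board n) (C := (∅ : Finset (Sym2 (Fin n))))
    (fun i U C => ∃ P : Finset (Fin n), (P.card = i ∨ (P.card ≤ i ∧ h5R K P C = ∅)) ∧
      H5Inv b k K l ρ P U C) n ?_ ⟨∅, Or.inl rfl, h5_start hK1⟩
  · refine hloop.mono ?_
    rintro U C ⟨P, hP, h⟩
    refine h5_end hkK hΔ h ?_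
    rcases hP with hP | hP
    · have hPu : P = univ := by
        rw [← card_eq_iff_eq_univ, hP, Fintype.card_fin]
      rw [Finset.eq_empty_iff_forall_notMem]
      intro y hy
      exact (h5_mem_R.1 hy).1 (hPu ▸ mem_univ y)
    · exact hP.2
  · rintro i hi U C ⟨P, hP, h⟩
    by_cases hR : h5R K P C = ∅
    · refine Force.here ⟨P, Or.inr ⟨?_, hR⟩, h⟩
      rcases hP with hP | hP
      · omega
      · omega
    · have hPi : P.card = i := by
        rcases hP with hP | hP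
        · exact hP
        · exact absurd hP.2 hR
      obtain ⟨v, hvR, hmax⟩ := exists_max_image (h5R K P C) (h5s b ρ P C)
        (nonempty_iff_ne_empty.2 hR)
      obtain ⟨t, ht, hpot⟩ := h.hpot
      have hvR' := h5_mem_R.1 hvR
      have hPn : P.card ≤ n := by
        calc P.card ≤ (univ : Finset (Fin n)).card := card_le_card (subset_univ _)
          _ = n := by rw [card_univ, Fintype.card_fin]
      have hneg : ∑ y ∈ h5R K P C, h5s b ρ P C y ^ 2 ≥ 0 := sum_nonneg fun y _ => sq_nonneg _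
      have ht3 : t ^ 3 ≤ 64 * n ^ 2 * b := by
        have h1 : (t : ℤ) ^ 3 ≤ 64 * n * b * P.card := by
          have : (0 : ℤ) ≤ 12 * n ^ 2 * (h5S K P C).card := by positivity
          linarith
        have h2 : (64 * n * b * P.card : ℤ) ≤ 64 * n * b * n := by
          have : (P.card : ℤ) ≤ n := by exact_mod_cast hPn
          exact mul_le_mul_of_nonneg_left this (by positivity)
        have h3 : t ^ 3 ≤ 64 * n * b * n := by exact_mod_cast h1.trans h2
        calc t ^ 3 ≤ 64 * n * b * n := h3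
          _ = 64 * n ^ 2 * b := by ring
      have hn1 := hnum t ht3
      have hWR : (h5R K P C).erase v ∩ h5ns ρ v ⊆ (h5R K P C).erase v := inter_subset_left
      have hWv : v ∉ (h5R K P C).erase v ∩ h5ns ρ v := fun h2 =>
        (mem_erase.1 (hWR h2)).1 rfl
      have hWn : ((h5R K P C).erase v ∩ h5ns ρ v).card ≤ n := by
        calc _ ≤ (univ : Finset (Fin n)).card := card_le_card (subset_univ _)
          _ = n := by rw [card_univ, Fintype.card_fin]
      have hin := inner (b := b) (l := l) (β := b) (v := v)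
        (W := (h5R K P C).erase v ∩ h5ns ρ v) (s0 := h5s b ρ P C) (t := (t : ℤ))
        (m := 6 * n) (U := U) (C := C) hb h.hC h.hsp hWv ?_ ?_ ?_ (by positivity) ?_
      · refine hin.mono ?_
        rintro U' C' ⟨A, X, hXA, hAW, hcard, rfl, rfl, hsp, hWA, hsum⟩
        refine ⟨insert v P, Or.inl ?_, ?_⟩
        · rw [card_insert_of_notMem hvR'.1, hPi]
        · exact h5_step hρ hr hb hK1 h hvR hmax (ht v hvR) hpot hn1 hXA hAW hcard hsp hWA hsum
      · intro y hy
        have h1 := mem_erase.1 (hWR hy)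
        exact h.hout v y hvR'.1 (h5_mem_R.1 h1.2).1 h1.1.symm
      · intro y hy
        exact ht y (mem_erase.1 (hWR hy)).2
      · intro y hy
        have h1 := (h5_mem_R.1 (mem_erase.1 (hWR hy)).2).2
        have h2 : b * dg C y ≤ 6 * n := (Nat.mul_le_mul_left _ h1.le).trans hK2
        have h3 : (b : ℤ) * dg C y ≤ 6 * n := by exact_mod_cast h2
        unfold h5s
        have h4 : (0 : ℤ) ≤ h5a ρ P y := by positivity
        linarith
      · intro X hX hXb
        refine (ball_card (Δ := Δ) ?_ l v).trans hβ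
        intro x
        have hXv : v ∉ X := fun h2 => hWv (hX h2)
        have hXn : X.card ≤ n / b := by
          rw [Nat.le_div_iff_mul_le hb]
          exact hXb.trans hWn
        by_cases hxv : x = v
        · subst hxv
          have h1 := h5_dg_v_le (C := C) hXv
          have h2 := hvR'.2
          omega
        · have h1 := h5_dg_le (C := C) (X := X) hxv
          by_cases hxP : x ∈ P
          · have h2 := h.hupP x hxP
            omega
          · have h2 := h.hup x hxP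
            have h3 := Nat.zero_le (n / b)
            omega

end Pool.Agent.Helper72.WC
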